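import Pool.Agent.MDG.Stmts

/-!
Row BRY of squad MDG: a label function with small signed boundary vanishes on bridges.
-/

set_option autoImplicit false

open Finset Pool.Agent.HEC

namespace Pool.Agent.MDG.H2

/-- opposite signs -/
theorem sg_neg {a b : Bool} (h : a ≠ b) : (sg b : ℝ) = - (sg a : ℝ) := by
  cases a <;> cases b <;> simp [sg] at h ⊢

open Classical in
/-- a property which holds for exactly one element -/
theorem cnt_one {α : Type} [Fintype α] {p : α → Prop} (h : cnt p = 1) {a b : α} (ha : p a)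
    (hb : p b) : a = b := by
  unfold cnt at h
  obtain ⟨c, hc⟩ := card_eq_one.1 h
  have h3 : ∀ z, p z → z = c := by
    intro z hz
    have h4 : z ∈ ({c} : Finset α) := by
      rw [← hc, mem_filter]
      exact ⟨mem_univ z, hz⟩
    exact mem_singleton.1 h4
  exact (h3 a ha).trans (h3 b hb).symm

/-- the only edge of a cut with one edge -/
theorem cut_one {V : Type} [Fintype V] (H : SimpleGraph V) (W : Finset V) (u v a b : V)
    (hc : cut H W = 1) (hu : u ∈ W) (hv : v ∉ W) (huv : H.Adj u v) (ha : a ∈ W) (hb : b ∉ W)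
    (hab : H.Adj a b) : a = u ∧ b = v := by
  have h3 : (a, b) = (u, v) := cnt_one hc (a := (a, b)) (b := (u, v)) ⟨ha, hb, hab⟩ ⟨hu, hv, huv⟩
  exact ⟨congrArg Prod.fst h3, congrArg Prod.snd h3⟩

/-- the inner double sum is zero -/
theorem inner_zero {V : Type} [Fintype V] (H : SimpleGraph V) (t : V → Bool) (x : V → V → ℝ)
    (W : Finset V) (ht : ∀ a b, H.Adj a b → t a ≠ t b) (hs : ∀ a b, x a b = x b a)
    (h0 : ∀ a b, ¬ H.Adj a b → x a b = 0) :
    ∑ a ∈ W, ∑ b ∈ W, (sg (t a) : ℝ) * x a b = 0 := by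
  have h1 : ∑ a ∈ W, ∑ b ∈ W, (sg (t a) : ℝ) * x a b =
      - ∑ a ∈ W, ∑ b ∈ W, (sg (t a) : ℝ) * x a b := by
    conv_lhs => rw [sum_comm]
    rw [← sum_neg_distrib]
    refine sum_congr rfl fun a _ => ?_
    rw [← sum_neg_distrib]
    refine sum_congr rfl fun b _ => ?_
    by_cases hab : H.Adj a b
    · rw [sg_neg (ht a b hab), hs b a]
      ring
    · rw [hs b a, h0 a b hab]
      ring
  linarith

open Classical in
/-- BRY. -/
theorem bry : BryStmt := by
  intro V _ H t x W u v ht hs h0 hc hu hv huv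
  have h1 : ∀ a ∈ W, (sg (t a) : ℝ) * bd x a =
      ∑ b ∈ W, (sg (t a) : ℝ) * x a b + ∑ b ∈ Wᶜ, (sg (t a) : ℝ) * x a b := by
    intro a _
    rw [bd, mul_sum, ← sum_add_sum_compl W]
  rw [sum_congr rfl h1, sum_add_distrib, inner_zero H t x W ht hs h0, zero_add]
  rw [sum_eq_single_of_mem u hu, sum_eq_single_of_mem v (mem_compl.2 hv)]
  · intro b hb hbv
    by_cases hab : H.Adj u b
    · exact absurd (cut_one H W u v u b hc hu hv huv hu (mem_compl.1 hb) hab).2 hbv
    · rw [h0 u b hab, mul_zero]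
  · intro a ha hau
    refine sum_eq_zero fun b hb => ?_
    by_cases hab : H.Adj a b
    · exact absurd (cut_one H W u v a b hc hu hv huv ha (mem_compl.1 hb) hab).1 hau
    · rw [h0 a b hab, mul_zero]

end Pool.Agent.MDG.H2
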